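import Pool.Agent.H.MP_84f0af_lc.Strong.EmitS

/-!
The pinwheel scheduling problem is strongly NP-hard, even for instances of density exactly one.

The reduction: a formula is turned into an exact orientation problem; the instance has one lane
(a residue class modulo `V`) for each vertex of the orientation problem, each lane has its own
prime, and the tiles of an edge fit in the two lanes of its ends only.
-/

namespace Pool.Agent.Results.MP_84f0af_lc.StrongNPHard

open Pool.Agent.H.MP_84f0af_lc Turing

/-- The unary encoding of an instance: each period `a` is written as `a` copies of the symbol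
`some true`, followed by the separator `none`. -/
def encodeUnary (b : PinInst) : List (Option Bool) :=
  b.1.flatMap fun a : ℕ => List.replicate a (some true) ++ [none]

/-- Every language `L` in NP (over a finite alphabet) reduces to the pinwheel scheduling problem
by a many-one reduction `f` computable in polynomial time even when the periods are written in
unary (and so, with the same `f`, when they are written in binary); moreover all the instances
`f x` have density exactly one. -/
theorem result {Γ : Type} [Fintype Γ] (L : Set (List Γ)) (hL : InNP L) :
    ∃ f : List Γ → PinInst,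
      Nonempty (TM2ComputableInPolyTime (id : List Γ → List Γ) encodeUnary f) ∧
      Nonempty (TM2ComputableInPolyTime (id : List Γ → List Γ) PinInst.encode f) ∧
      ∀ x, (f x).density = 1 ∧ (x ∈ L ↔ (f x).Schedulable) := by
  obtain ⟨n, m, ks, hn, hm, hn1, hsat⟩ := np_families hL (Option Bool)
  have hgood : ∀ x, (Strong.oriF n m ks x).Good := fun x => Strong.good_oriF hn1 ks x
  let f : List Γ → PinInst := fun x => ⟨(Strong.oriF n m ks x).periods, by
    refine ⟨?_, ?_⟩
    · intro h0
      have h1 : Strong.Til.Id 0 0 ∈ (Strong.oriF n m ks x).tiles :=
        (Strong.Ori.mem_Id _).2 ⟨(hgood x).V_pos, by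
          have := ((hgood x).prime 0).two_le; omega⟩
      have h2 : (Strong.oriF n m ks x).modulus (Strong.Til.Id 0 0)
          ∈ (Strong.oriF n m ks x).periods := List.mem_map_of_mem h1
      rw [h0] at h2
      exact absurd h2 List.not_mem_nil
    · intro a ha
      obtain ⟨t, ht, rfl⟩ := List.mem_map.1 ha
      exact (hgood x).modulus_pos t⟩
  refine ⟨f, (Strong.emits_oriF (Strong.unCode_ok Γ) hn hm ks).computable encodeUnary f
      fun x => rfl,
    (Strong.emits_oriF (Strong.binCode_ok Γ) hn hm ks).computable PinInst.encode f fun x => rfl,
    fun x => ⟨?_, ?_⟩⟩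
  · have h := Strong.Ori.density (hgood x)
    show (((Strong.oriF n m ks x).tiles.map (Strong.oriF n m ks x).modulus).map
      fun a : ℕ => (1 : ℚ) / (a : ℚ)).sum = 1
    rw [List.map_map]
    exact h
  · rw [hsat x, ← Strong.schedulable_oriF hn1 ks x]
    constructor
    · rintro ⟨s, hs⟩
      refine ⟨fun j => s (j - 1), fun i t => ?_⟩
      obtain ⟨j, hj, hj'⟩ := hs i t
      refine ⟨t + 1 + j, by omega, ?_, ?_⟩
      · have : t + 1 + j ≤ t + (Strong.oriF n m ks x).periods.get i := by omega
        exact this
      · have e : t + 1 + j - 1 = t + j := by omega
        show s (t + 1 + j - 1) = i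
        rw [e]
        exact hj'
    · rintro ⟨s, hs⟩
      refine ⟨fun j => s (j + 1), fun i t => ?_⟩
      obtain ⟨j, hj1, hj2, hj3⟩ := hs i t
      have hj2' : j ≤ t + (Strong.oriF n m ks x).periods.get i := hj2
      refine ⟨j - (t + 1), by omega, ?_⟩
      have e : t + (j - (t + 1)) + 1 = j := by omega
      show s (t + (j - (t + 1)) + 1) = i
      rw [e]
      exact hj3

end Pool.Agent.Results.MP_84f0af_lc.StrongNPHard
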